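import Mathlib
import Pool.Agent.Run7.h748.ST.Basic

/-!
# The Sato-Tate law along arbitrary sets of primes, for almost all members of a list of families

Let `f_1, ..., f_m` be newforms without complex multiplication over a totally real field `K` (for instance
elliptic curves over `K`), no two of which are twists of each other, and let `θ_i(v) ∈ [0, π]` be the angle of
`f_i` at `v`, so that the Sato-Tate group of the family of `f_i` is `SU(2)`. Let `W` be *any* other object with a
datum at every prime: a compatible family, of which nothing is known, with its class `x_v(W)`, or an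
abelian variety with its reductions, or any function of the primes at all. The Sato-Tate conjecture for the
family of `f_i` and `W` together predicts, if the Sato-Tate groups are independent, that `θ_i(v)` follows the
Sato-Tate law on the primes on which the datum of `W` is prescribed. We prove this for almost all `i`.

The theorem is, at every large height `N`, with a threshold depending on `m` and `ε` only:

* (1) for every real function `g` on the primes and all intervals `[a_i, b_i]` (one for each form), the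
  covariances of `g` and of the condition `θ_i(v) ∈ [a_i, b_i]` are square summable over the forms:
  their squares have a sum of at most `(1/4 + ε)` times the mean of `g²`;
* (2) for every set `P` of primes, of density `d` up to `N`, all but `(1/4 + ε) / (η² d)` of the forms follow the
  Sato-Tate law along `P`, for all intervals, up to the error `η`;
* (3) for every partition of the primes in any number of classes there are at most `(1/4 + ε) / η²` pairs of a
  form and a class with a discrepancy `≥ η` (of the joint law) for some interval.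

The bounds do not depend on `m`. For a single form `f_i` there are always sets of primes on which the law fails (for
instance the primes with `θ_i(v) ≤ π/2`), so that exceptions are necessary; for `P` defined by `f_j`, the law on
`P` for `f_i`, `i ≠ j`, is the known joint Sato-Tate law of two forms.

The proof is Bessel's inequality for the almost orthogonal functions `1[θ_i ∈ I_i] - μ(I_i)`, `i = 1, ..., m`, with
a grid argument for the uniformity in the intervals. Only pairs of forms are used.
-/

set_option autoImplicit false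

namespace Pool.Agent.Results.MP_4c4ce6_nt.ArbitrarySetsOfPrimes

open NumberField IsDedekindDomain Filter Topology
open Run7.h748.ST (Pairs)

variable {K : Type} [Field K] [NumberField K] {m : ℕ}

/-- the proportion of the primes with `P` among the primes of norm at most `N` -/
noncomputable def density (P : HeightOneSpectrum (𝓞 K) → Prop) (N : ℕ) : ℝ :=
  (Nat.card {v : HeightOneSpectrum (𝓞 K) // Ideal.absNorm v.asIdeal ≤ N ∧ P v} : ℝ) /
    Nat.card {v : HeightOneSpectrum (𝓞 K) // Ideal.absNorm v.asIdeal ≤ N}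

/-- the average of `f` over the primes of norm at most `N` -/
noncomputable def mean (f : HeightOneSpectrum (𝓞 K) → ℝ) (N : ℕ) : ℝ :=
  (∑ᶠ v ∈ {v : HeightOneSpectrum (𝓞 K) | Ideal.absNorm v.asIdeal ≤ N}, f v) /
    Nat.card {v : HeightOneSpectrum (𝓞 K) // Ideal.absNorm v.asIdeal ≤ N}

/-- the Sato-Tate measure of the interval `[a, b]` of angles -/
noncomputable def st (a b : ℝ) : ℝ := 2 / Real.pi * ∫ t in a..b, Real.sin t ^ 2

/-- the angles `α v` deviate by at least `η` from the Sato-Tate law along the primes with `P`, for some interval -/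
def Far (α : HeightOneSpectrum (𝓞 K) → ℝ) (P : HeightOneSpectrum (𝓞 K) → Prop) (η : ℝ) (N : ℕ) : Prop :=
  ∃ a b : ℝ, 0 ≤ a ∧ a ≤ b ∧ b ≤ Real.pi ∧
    η ≤ |density (fun v => P v ∧ a ≤ α v ∧ α v ≤ b) N - st a b * density P N|

theorem density_eq (P : HeightOneSpectrum (𝓞 K) → Prop) (N : ℕ) :
    density P N = Run7.h911.NT.avg (fun v => Run7.h911.NT.b2r (P v)) N := by
  classical
  unfold density Run7.h911.NT.avg
  have h1 : Nat.card {v : HeightOneSpectrum (𝓞 K) // Ideal.absNorm v.asIdeal ≤ N} =
      (Pool.Agent.W540.BE.upto K N).card := Nat.subtype_card _ fun v => Pool.Agent.W540.BE.mem_upto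
  have h2 : Nat.card {v : HeightOneSpectrum (𝓞 K) // Ideal.absNorm v.asIdeal ≤ N ∧ P v} =
      ((Pool.Agent.W540.BE.upto K N).filter P).card := Nat.subtype_card _ fun v => by
    rw [Finset.mem_filter]
    exact and_congr_left fun _ => Pool.Agent.W540.BE.mem_upto
  rw [h1, h2, Finset.card_filter]
  congr 1
  push_cast
  refine Finset.sum_congr rfl fun v _ => ?_
  unfold Run7.h911.NT.b2r
  congr

theorem mean_eq (f : HeightOneSpectrum (𝓞 K) → ℝ) (N : ℕ) : mean f N = Run7.h911.NT.avg f N := by
  classical
  unfold mean Run7.h911.NT.avg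
  have h1 : Nat.card {v : HeightOneSpectrum (𝓞 K) // Ideal.absNorm v.asIdeal ≤ N} =
      (Pool.Agent.W540.BE.upto K N).card := Nat.subtype_card _ fun v => Pool.Agent.W540.BE.mem_upto
  have h2 : {v : HeightOneSpectrum (𝓞 K) | Ideal.absNorm v.asIdeal ≤ N} =
      ((Pool.Agent.W540.BE.upto K N : Finset _) : Set (HeightOneSpectrum (𝓞 K))) := by
    ext v
    rw [Set.mem_ofPred_eq, Finset.mem_coe]
    exact Pool.Agent.W540.BE.mem_upto.symm
  rw [h1, h2, finsum_mem_coe_finset]

theorem ind_eq (a b t : ℝ) : Run7.h911.ST.ind a b t = Run7.h911.NT.b2r (a ≤ t ∧ t ≤ b) := by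
  classical
  unfold Run7.h911.ST.ind Run7.h911.NT.b2r
  by_cases h : a ≤ t ∧ t ≤ b
  · rw [if_pos h, if_pos (Set.mem_Icc.2 h)]
  · rw [if_neg h, if_neg (fun h' => h (Set.mem_Icc.1 h'))]

/-- the covariance in terms of the centered indicator function -/
theorem cov_eq (α g : HeightOneSpectrum (𝓞 K) → ℝ) (a b : ℝ) (N : ℕ) :
    mean ({v | a ≤ α v ∧ α v ≤ b}.indicator g) N - st a b * mean g N =
      Run7.h911.NT.avg (fun v => g v * Run7.h748.ST.H a b (α v)) N := by
  classical
  rw [mean_eq, mean_eq]
  have e : (fun v => g v * Run7.h748.ST.H a b (α v)) = fun v =>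
      ({v | a ≤ α v ∧ α v ≤ b}.indicator g) v + (-st a b) * g v := by
    funext v
    have h1 : Run7.h911.ST.mu a b = st a b := rfl
    unfold Run7.h748.ST.H
    rw [ind_eq, h1]
    unfold Run7.h911.NT.b2r
    by_cases h : a ≤ α v ∧ α v ≤ b
    · rw [if_pos h, Set.indicator_of_mem (by exact h)]
      ring
    · rw [if_neg h, Set.indicator_of_notMem (by exact h)]
      ring
  rw [e, Run7.h911.NT.avg_add, Run7.h911.NT.avg_mul]
  ring

theorem far_eq (α : HeightOneSpectrum (𝓞 K) → ℝ) (P : HeightOneSpectrum (𝓞 K) → Prop) (a b : ℝ) (N : ℕ) :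
    density (fun v => P v ∧ a ≤ α v ∧ α v ≤ b) N - st a b * density P N =
      Run7.h911.NT.avg (fun v => Run7.h911.NT.b2r (P v) * Run7.h748.ST.H a b (α v)) N := by
  classical
  rw [density_eq, density_eq]
  have e : (fun v => Run7.h911.NT.b2r (P v) * Run7.h748.ST.H a b (α v)) = fun v =>
      Run7.h911.NT.b2r (P v ∧ a ≤ α v ∧ α v ≤ b) + (-st a b) * Run7.h911.NT.b2r (P v) := by
    funext v
    have h1 : Run7.h911.ST.mu a b = st a b := rfl
    unfold Run7.h748.ST.H
    rw [ind_eq, h1]
    unfold Run7.h911.NT.b2r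
    by_cases hP : P v <;> by_cases h : a ≤ α v ∧ α v ≤ b <;> simp [hP, h]; ring
  rw [e, Run7.h911.NT.avg_add, Run7.h911.NT.avg_mul]
  ring

theorem b2r_sq (P : Prop) : Run7.h911.NT.b2r P ^ 2 = Run7.h911.NT.b2r P := by
  unfold Run7.h911.NT.b2r
  split_ifs <;> norm_num

/-- **Sato-Tate along arbitrary sets of primes.** `θ i v` is the angle of the `i`-th form at the prime `v`. -/
theorem result {θ : Fin m → HeightOneSpectrum (𝓞 K) → ℝ} (h : Pairs θ) {ε : ℝ} (hε : 0 < ε) :
    ∀ᶠ N : ℕ in atTop,
      -- (1) all functions on the primes, all intervals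
      (∀ (g : HeightOneSpectrum (𝓞 K) → ℝ) (a b : Fin m → ℝ),
        (∀ i, 0 ≤ a i ∧ a i ≤ b i ∧ b i ≤ Real.pi) →
        ∑ i, (mean ({v | a i ≤ θ i v ∧ θ i v ≤ b i}.indicator g) N - st (a i) (b i) * mean g N) ^ 2 ≤
          (1 / 4 + ε) * mean (fun v => g v ^ 2) N) ∧
      -- (2) all sets of primes
      (∀ (P : HeightOneSpectrum (𝓞 K) → Prop) (η : ℝ), 0 < η →
        Nat.card {i : Fin m // Far (θ i) P (η * density P N) N} * (η ^ 2 * density P N) ≤ 1 / 4 + ε) ∧
      -- (3) all partitions of the set of primes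
      (∀ (ι : Type) (c : HeightOneSpectrum (𝓞 K) → ι) (η : ℝ), 0 < η →
        ∀ T : Finset (Fin m × ι), (∀ p ∈ T, Far (θ p.1) (fun v => c v = p.2) η N) →
          T.card * η ^ 2 ≤ 1 / 4 + ε) := by
  classical
  filter_upwards [Run7.h748.ST.bessel h hε] with N hN
  have dn : ∀ P : HeightOneSpectrum (𝓞 K) → Prop, 0 ≤ density P N := fun P => by
    unfold density; positivity
  have hp := Real.pi_pos
  refine ⟨fun g a b hab => ?_, fun P η hη => ?_, fun ι c η hη T hT => ?_⟩
  · simp only [cov_eq]
    rw [mean_eq]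
    exact hN g a b hab
  · have key : ∀ i : Fin m, ∃ a b : ℝ, (0 ≤ a ∧ a ≤ b ∧ b ≤ Real.pi) ∧
        (Far (θ i) P (η * density P N) N → η * density P N ≤
          |density (fun v => P v ∧ a ≤ θ i v ∧ θ i v ≤ b) N - st a b * density P N|) := by
      intro i
      by_cases hf : Far (θ i) P (η * density P N) N
      · obtain ⟨a, b, h0, hab, hb, hbig⟩ := hf
        exact ⟨a, b, ⟨h0, hab, hb⟩, fun _ => hbig⟩
      · exact ⟨0, 0, ⟨le_rfl, le_rfl, hp.le⟩, fun h' => absurd h' hf⟩
    choose a b hab hbig using key
    have h1 := hN (fun v => Run7.h911.NT.b2r (P v)) a b hab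
    simp only [← far_eq, b2r_sq] at h1
    rw [← density_eq] at h1
    set d := density P N with hd
    have h2 : (Nat.card {i : Fin m // Far (θ i) P (η * d) N} : ℝ) * (η * d) ^ 2 ≤ (1 / 4 + ε) * d := by
      refine le_trans ?_ h1
      rw [Nat.card_eq_fintype_card, Fintype.card_subtype, Finset.card_filter]
      push_cast
      rw [Finset.sum_mul]
      refine Finset.sum_le_sum fun i _ => ?_
      split_ifs with hf
      · rw [one_mul, ← sq_abs (density _ _ - _)]
        exact pow_le_pow_left₀ (mul_nonneg hη.le (dn P)) (hbig i hf) 2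
      · rw [zero_mul]
        positivity
    rcases (dn P).eq_or_lt with h0 | h0
    · rw [← hd] at h0
      rw [← h0]
      simp only [mul_zero]
      positivity
    · refine le_of_mul_le_mul_right ?_ h0
      rw [← hd]
      calc (Nat.card {i : Fin m // Far (θ i) P (η * d) N} : ℝ) * (η ^ 2 * d) * d
          = (Nat.card {i : Fin m // Far (θ i) P (η * d) N} : ℝ) * (η * d) ^ 2 := by ring
        _ ≤ _ := h2
  · -- the colours of `T`
    set Q : Finset ι := T.image Prod.snd with hQ
    have key : ∀ (i : Fin m) (q : ι), ∃ a b : ℝ, (0 ≤ a ∧ a ≤ b ∧ b ≤ Real.pi) ∧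
        ((i, q) ∈ T → η ≤
          |density (fun v => c v = q ∧ a ≤ θ i v ∧ θ i v ≤ b) N - st a b * density (fun v => c v = q) N|) := by
      intro i q
      by_cases hf : (i, q) ∈ T
      · obtain ⟨a, b, h0, hab, hb, hbig⟩ := hT _ hf
        exact ⟨a, b, ⟨h0, hab, hb⟩, fun _ => hbig⟩
      · exact ⟨0, 0, ⟨le_rfl, le_rfl, hp.le⟩, fun h' => absurd h' hf⟩
    choose a b hab hbig using key
    have h1 : ∀ q ∈ Q, ∑ i, (density (fun v => c v = q ∧ a i q ≤ θ i v ∧ θ i v ≤ b i q) N -
        st (a i q) (b i q) * density (fun v => c v = q) N) ^ 2 ≤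
          (1 / 4 + ε) * density (fun v => c v = q) N := by
      intro q _
      have h2 := hN (fun v => Run7.h911.NT.b2r (c v = q)) (fun i => a i q) (fun i => b i q)
        (fun i => hab i q)
      simp only [← far_eq, b2r_sq] at h2
      rw [← density_eq] at h2
      exact h2
    have h3 : ∑ q ∈ Q, density (fun v => c v = q) N ≤ 1 := by
      simp only [density_eq]
      rw [← Run7.h911.NT.avg_sum]
      refine le_trans (Run7.h911.NT.avg_mono (g := fun _ => (1 : ℝ)) (fun v => ?_) N)
        (Run7.h748.ST.avg_one_le N)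
      unfold Run7.h911.NT.b2r
      rw [Finset.sum_ite_eq]
      split_ifs <;> norm_num
    calc (T.card : ℝ) * η ^ 2 = ∑ p ∈ T, η ^ 2 := by rw [Finset.sum_const, nsmul_eq_mul]
      _ ≤ ∑ p ∈ T, (density (fun v => c v = p.2 ∧ a p.1 p.2 ≤ θ p.1 v ∧ θ p.1 v ≤ b p.1 p.2) N -
          st (a p.1 p.2) (b p.1 p.2) * density (fun v => c v = p.2) N) ^ 2 := by
          refine Finset.sum_le_sum fun p hpT => ?_
          rw [← sq_abs (density _ _ - _)]
          exact pow_le_pow_left₀ hη.le (hbig p.1 p.2 hpT) 2
      _ ≤ ∑ p ∈ Finset.univ ×ˢ Q, (density (fun v => c v = p.2 ∧ a p.1 p.2 ≤ θ p.1 v ∧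
          θ p.1 v ≤ b p.1 p.2) N - st (a p.1 p.2) (b p.1 p.2) * density (fun v => c v = p.2) N) ^ 2 := by
          refine Finset.sum_le_sum_of_subset_of_nonneg (fun p hpT => ?_) fun _ _ _ => sq_nonneg _
          exact Finset.mem_product.2 ⟨Finset.mem_univ _, Finset.mem_image_of_mem _ hpT⟩
      _ = ∑ q ∈ Q, ∑ i, (density (fun v => c v = q ∧ a i q ≤ θ i v ∧ θ i v ≤ b i q) N -
          st (a i q) (b i q) * density (fun v => c v = q) N) ^ 2 := by
          rw [Finset.sum_product_right]
      _ ≤ ∑ q ∈ Q, (1 / 4 + ε) * density (fun v => c v = q) N := Finset.sum_le_sum h1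
      _ = (1 / 4 + ε) * ∑ q ∈ Q, density (fun v => c v = q) N := by rw [Finset.mul_sum]
      _ ≤ (1 / 4 + ε) * 1 := mul_le_mul_of_nonneg_left h3 (by positivity)
      _ = 1 / 4 + ε := mul_one _

end Pool.Agent.Results.MP_4c4ce6_nt.ArbitrarySetsOfPrimes
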