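import Mathlib
import Pool.Agent.Run7.h748.Mob.Fin

/-!
# Hyperbolic maps in the orbit of every rational map under the Möbius group

Let `R` be any rational map of degree `d ≥ 2`. We show that most Möbius maps `M` of condition number
much larger than `d` make `M ∘ R` hyperbolic, with an attracting fixed point whose immediate basin
contains all critical values; the bounds depend on `d` only.
-/

set_option autoImplicit false

open Polynomial MeasureTheory

namespace Pool.Agent.Results.MP_8f2e1c_an.EveryMoebiusOrbit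

/-- `P / Q` is in lowest terms and every critical point (point of the Riemann sphere where the map
is not locally injective) has an orbit converging to an attracting periodic cycle. This is word
for word the condition of the frozen statement `S05373`. -/
def Hyperbolic (P Q : Polynomial ℂ) : Prop :=
  IsCoprime P Q ∧ ∃ f : OnePoint ℂ → OnePoint ℂ, Continuous f ∧
    (∀ z : ℂ, Q.eval z ≠ 0 →
      f (OnePoint.some z) = OnePoint.some (P.eval z / Q.eval z)) ∧
    ∀ c : OnePoint ℂ, (¬ ∃ U ∈ nhds c, Set.InjOn f U) →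
      ∃ z : OnePoint ℂ, ∃ n : ℕ, 0 < n ∧ f^[n] z = z ∧
        (∃ U ∈ nhds z, ∀ w ∈ U,
          Filter.Tendsto (fun k : ℕ => f^[n * k] w) Filter.atTop (nhds z)) ∧
        Filter.Tendsto (fun k : ℕ => f^[n * k] c) Filter.atTop (nhds z)

/-- `P / Q` is in lowest terms and defines a map of the sphere with an attracting fixed point
`z₀ ∈ ℂ`, of multiplier of modulus at most `3 / 4`, such that an open connected subset `W` of its
basin contains `z₀` and the values of the map at all critical points: all critical values lie in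
the immediate basin of the fixed point `z₀`. -/
def Captured (P Q : Polynomial ℂ) : Prop :=
  IsCoprime P Q ∧ ∃ f : OnePoint ℂ → OnePoint ℂ, Continuous f ∧
    (∀ z : ℂ, Q.eval z ≠ 0 →
      f (OnePoint.some z) = OnePoint.some (P.eval z / Q.eval z)) ∧
    ∃ z₀ : ℂ, Q.eval z₀ ≠ 0 ∧ P.eval z₀ / Q.eval z₀ = z₀ ∧
      ‖deriv (fun z => P.eval z / Q.eval z) z₀‖ ≤ 3 / 4 ∧
      ∃ W : Set (OnePoint ℂ), IsOpen W ∧ IsConnected W ∧ OnePoint.some z₀ ∈ W ∧
        (∀ w ∈ W, Filter.Tendsto (fun k : ℕ => f^[k] w) Filter.atTop (nhds (OnePoint.some z₀))) ∧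
        ∀ c : OnePoint ℂ, (¬ ∃ U ∈ nhds c, Set.InjOn f U) → f c ∈ W

/-- `P / Q` has degree `d`, is hyperbolic, and all its critical values lie in the immediate basin of
one attracting fixed point. -/
def Good (d : ℕ) (P Q : Polynomial ℂ) : Prop :=
  max P.natDegree Q.natDegree = d ∧ Hyperbolic P Q ∧ Captured P Q

/-- The numerator of `M ∘ (P / Q)`, `M` the Möbius map with the matrix `M`. -/
noncomputable def num (M : Matrix (Fin 2) (Fin 2) ℂ) (P Q : Polynomial ℂ) : Polynomial ℂ :=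
  C (M 0 0) * P + C (M 0 1) * Q

/-- The denominator of `M ∘ (P / Q)`. -/
noncomputable def den (M : Matrix (Fin 2) (Fin 2) ℂ) (P Q : Polynomial ℂ) : Polynomial ℂ :=
  C (M 1 0) * P + C (M 1 1) * Q

/-- The spherical area on the plane; its total mass is `π`. -/
noncomputable def sphereArea : Measure ℂ :=
  (volume : Measure ℂ).withDensity fun z => ENNReal.ofReal (1 / (1 + ‖z‖ ^ 2) ^ 2)

/-- The length of a vector of `ℂ ^ 2`. -/
noncomputable def len (v : ℂ × ℂ) : ℝ := √(‖v.1‖ ^ 2 + ‖v.2‖ ^ 2)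

/-- The chordal distance (normalised to have maximum `1`) of the points of the Riemann sphere with
the homogeneous coordinates `v ≠ 0` and `w ≠ 0`. -/
noncomputable def chordal (v w : ℂ × ℂ) : ℝ := ‖v.1 * w.2 - v.2 * w.1‖ / (len v * len w)

/-- The Möbius map with the matrix `M` maps the set of all points of the sphere at chordal distance
at least `s` from `q` into the set of the points at chordal distance at most `s` from `p`. -/
def Contracts (M : Matrix (Fin 2) (Fin 2) ℂ) (p q : ℂ) (s : ℝ) : Prop :=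
  ∀ v : ℂ × ℂ, v ≠ 0 → s ≤ chordal v (q, 1) →
    chordal (M 0 0 * v.1 + M 0 1 * v.2, M 1 0 * v.1 + M 1 1 * v.2) (p, 1) ≤ s

/-- The square of the Frobenius norm: `‖M‖² + ‖M‖⁻²` in terms of the operator norm, if `det M = 1`. -/
noncomputable def frobSq (M : Matrix (Fin 2) (Fin 2) ℂ) : ℝ :=
  ‖M 0 0‖ ^ 2 + ‖M 0 1‖ ^ 2 + ‖M 1 0‖ ^ 2 + ‖M 1 1‖ ^ 2

theorem contr {M : Matrix (Fin 2) (Fin 2) ℂ} {p q : ℂ} {s : ℝ} (hM : M.det ≠ 0) :
    Contracts M p q s ↔ ∀ y, y ≠ 0 → s * (Run7.h748.Mob.nn y * Run7.h748.Mob.bb q) ≤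
      ‖Run7.h748.Mob.crq y q‖ →
      ‖Run7.h748.Mob.crq (Run7.h748.Mob.mv (M 0 0) (M 0 1) (M 1 0) (M 1 1) y) p‖ ≤
        s * (Run7.h748.Mob.nn (Run7.h748.Mob.mv (M 0 0) (M 0 1) (M 1 0) (M 1 1) y) * Run7.h748.Mob.bb p) := by
  have hdet : M 0 0 * M 1 1 - M 0 1 * M 1 0 ≠ 0 := by rwa [← Matrix.det_fin_two]
  have e : ∀ (v : ℂ × ℂ) (w : ℂ), v ≠ 0 → chordal v (w, 1) =
      ‖Run7.h748.Mob.crq v w‖ / (Run7.h748.Mob.nn v * Run7.h748.Mob.bb w) := by
    intro v w _
    rw [Run7.h748.Mob.crq_eq, Run7.h748.Mob.bb_eq]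
    rfl
  have e2 : ∀ (v : ℂ × ℂ) (w : ℂ), v ≠ 0 → 0 < Run7.h748.Mob.nn v * Run7.h748.Mob.bb w := fun v w hv =>
    mul_pos (Run7.h748.Mob.nn_pos hv) (Run7.h748.Mob.bb_pos w)
  unfold Contracts
  refine forall_congr' fun v => forall_congr' fun hv => ?_
  have hv' : (M 0 0 * v.1 + M 0 1 * v.2, M 1 0 * v.1 + M 1 1 * v.2) ≠ (0 : ℂ × ℂ) :=
    Pool.Agent.R239.Fat.lin_ne hdet hv
  rw [e v q hv, e _ p hv', le_div_iff₀ (e2 v q hv), div_le_iff₀ (e2 _ p hv')]
  rfl

/-- Let `R = P / Q` be a rational map of degree `d ≥ 2`.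

(1) Let `s > 0`. For all pairs of points `(p, q)` of the sphere, outside a set of measure at most
`10 ^ 12 π ^ 3 d s ^ 2` (the total measure is `π ^ 2`), all Möbius maps `M` which map the complement
of the disc of radius `s` around `q` into the disc of radius `s` around `p` make `M ∘ R` a hyperbolic
map of degree `d`, all of whose critical values lie in the immediate basin of one attracting fixed
point.

(2) For all `p, q, s` there are such maps `M` of determinant `1` with `‖M‖² + ‖M‖⁻² = s⁻² + s²`.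

(3) In every orbit of the Möbius group, the hyperbolic maps are coarsely dense: for every `N` of
determinant `1` there is `M` of determinant `1` with `‖M N⁻¹‖² ≤ 10 ^ 13 d` such that `M ∘ R` is
hyperbolic, with the same additional properties. The constants are independent of `R`, `N`, `d`. -/
theorem result :
    (∀ (d : ℕ) (P Q : ℂ[X]), 2 ≤ d → IsCoprime P Q → max P.natDegree Q.natDegree = d →
      (∀ s : ℝ, 0 < s → (sphereArea.prod sphereArea) {x : ℂ × ℂ |
        ¬ ∀ M : Matrix (Fin 2) (Fin 2) ℂ, M.det ≠ 0 → Contracts M x.1 x.2 s →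
          Good d (num M P Q) (den M P Q)} ≤ ENNReal.ofReal (10 ^ 12 * Real.pi ^ 3 * d * s ^ 2)) ∧
      (∀ N : Matrix (Fin 2) (Fin 2) ℂ, N.det = 1 → ∃ M : Matrix (Fin 2) (Fin 2) ℂ, M.det = 1 ∧
        frobSq (M * N⁻¹) ≤ 10 ^ 13 * d ∧ Good d (num M P Q) (den M P Q))) ∧
    ∀ (p q : ℂ) (s : ℝ), 0 < s → ∃ M : Matrix (Fin 2) (Fin 2) ℂ, M.det = 1 ∧
      frobSq M = 1 / s ^ 2 + s ^ 2 ∧ Contracts M p q s := by
  have key : ∀ (d : ℕ) (P Q : ℂ[X]), 2 ≤ d → IsCoprime P Q → max P.natDegree Q.natDegree = d →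
      ∀ M : Matrix (Fin 2) (Fin 2) ℂ, M.det ≠ 0 → Captured (num M P Q) (den M P Q) →
      Good d (num M P Q) (den M P Q) := by
    intro d P Q hd hc hdeg M hM h
    have hdet : M 0 0 * M 1 1 - M 0 1 * M 1 0 ≠ 0 := by rwa [← Matrix.det_fin_two]
    exact ⟨Run7.h748.Mob.deg_eq hd hc hdeg hdet, Run7.h748.Mob.Captured.hyperbolic h, h⟩
  refine ⟨fun d P Q hd hc hdeg => ⟨fun s hs => ?_, fun N hN => ?_⟩, fun p q s hs => ?_⟩
  · refine le_trans (measure_mono ?_) (Run7.h748.Mob.main1 hd hc hdeg hs)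
    intro x hx hcon
    refine hx fun M hM hM2 => key d P Q hd hc hdeg M hM ?_
    have hdet : M 0 0 * M 1 1 - M 0 1 * M 1 0 ≠ 0 := by rwa [← Matrix.det_fin_two]
    exact hcon _ _ _ _ hdet ((contr hM).1 hM2)
  · have hNdet : N 0 0 * N 1 1 - N 0 1 * N 1 0 = 1 := by rw [← Matrix.det_fin_two, hN]
    have hNdet' : N 0 0 * N 1 1 - N 0 1 * N 1 0 ≠ 0 := by rw [hNdet]; exact one_ne_zero
    obtain ⟨a, b, c, e, h1, h2, h3⟩ := Run7.h748.Mob.main2 hd (Run7.h748.Mob.coprime_mob hc hNdet')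
      (Run7.h748.Mob.deg_eq hd hc hdeg hNdet')
    set T : Matrix (Fin 2) (Fin 2) ℂ := !![a, b; c, e] with hT
    have hTdet : T.det = 1 := by rw [hT, Matrix.det_fin_two_of, h1]
    have hdet : (T * N).det = 1 := by rw [Matrix.det_mul, hTdet, hN, one_mul]
    have e00 : (T * N) 0 0 = a * N 0 0 + b * N 1 0 := by simp [hT, Matrix.mul_apply, Fin.sum_univ_two]
    have e01 : (T * N) 0 1 = a * N 0 1 + b * N 1 1 := by simp [hT, Matrix.mul_apply, Fin.sum_univ_two]
    have e10 : (T * N) 1 0 = c * N 0 0 + e * N 1 0 := by simp [hT, Matrix.mul_apply, Fin.sum_univ_two]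
    have e11 : (T * N) 1 1 = c * N 0 1 + e * N 1 1 := by simp [hT, Matrix.mul_apply, Fin.sum_univ_two]
    refine ⟨T * N, hdet, ?_, key d P Q hd hc hdeg _ (by rw [hdet]; exact one_ne_zero) ?_⟩
    · rw [Matrix.mul_assoc, Matrix.mul_nonsing_inv _ (by rw [hN]; exact isUnit_one), Matrix.mul_one]
      exact h2
    · have e1 : num (T * N) P Q = C a * (C (N 0 0) * P + C (N 0 1) * Q) +
          C b * (C (N 1 0) * P + C (N 1 1) * Q) := by
        rw [num, e00, e01, C_add, C_add, C_mul, C_mul, C_mul, C_mul]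
        ring
      have e2 : den (T * N) P Q = C c * (C (N 0 0) * P + C (N 0 1) * Q) +
          C e * (C (N 1 0) * P + C (N 1 1) * Q) := by
        rw [den, e10, e11, C_add, C_add, C_mul, C_mul, C_mul, C_mul]
        ring
      rw [e1, e2]
      exact h3
  · obtain ⟨a, b, c, e, h1, h2, h3⟩ := Run7.h748.Mob.matrix_exists hs p q
    have hdet : (!![a, b; c, e] : Matrix (Fin 2) (Fin 2) ℂ).det = 1 := by
      rw [Matrix.det_fin_two_of, h1]
    refine ⟨!![a, b; c, e], hdet, h2, (contr (by rw [hdet]; exact one_ne_zero)).2 ?_⟩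
    exact h3

end Pool.Agent.Results.MP_8f2e1c_an.EveryMoebiusOrbit
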